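import Mathlib
import Pool.Agent.H655R3.MkTest

/-!
# The level sets of the Markoff type cubic modulo p: the expected large orbit can be missing

For odd primes `p` and `k ≠ ± 2` it was asked whether `M_k(F_p)` minus the exceptional orbits is
always a single orbit of the group generated by the coordinate permutations and the Vieta
involution.  This is false: the difference is empty for `(p, k) = (3, 0), (5, 0), (5, 4), (7, 0),
(7, 1), (11, 1)`.
-/

set_option autoImplicit false

namespace Pool.Agent.Results.MP_c86b5e_nt.EmptyLevels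

open Pool.Agent.H655R3.Mk

instance : Fact (Nat.Prime 7) := ⟨by norm_num⟩
instance : Fact (Nat.Prime 11) := ⟨by norm_num⟩
instance : Fact (Nat.Prime 5) := ⟨by norm_num⟩

theorem empty3 : M 3 0 \ E 3 0 = ∅ := by
  rw [level_eq (by decide) 0 2 t3, Set.sdiff_self]

/-- `M p k` is the set of triples at level `k`, `E p k` the union of the exceptional orbits contained
in it, `orbit p v` the orbit of `v`. -/
theorem result :
    (¬ ∀ (p : ℕ) [Fact p.Prime], p ≠ 2 → ∀ k : ZMod p, k ≠ 2 → k ≠ -2 →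
      ∃ v, v ∈ M p k \ E p k ∧ M p k \ E p k = orbit p v) ∧
    M 3 0 \ E 3 0 = ∅ ∧ M 5 0 \ E 5 0 = ∅ ∧ M 5 4 \ E 5 4 = ∅ ∧ M 7 0 \ E 7 0 = ∅ ∧
    M 7 1 \ E 7 1 = ∅ ∧ M 11 1 \ E 11 1 = ∅ := by
  refine ⟨fun h => ?_, empty3, ?_, ?_, ?_, ?_, ?_⟩
  · obtain ⟨v, hv, _⟩ := h 3 (by norm_num) 0 (by decide) (by decide)
    rw [empty3] at hv
    exact hv
  · rw [level_eq (by decide) 0 2 t5a, Set.sdiff_self]
  · rw [level_eq (by decide) 4 0 t5c, Set.sdiff_self]
  · rw [level_eq (by decide) 0 2 t7a, Set.sdiff_self]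
  · rw [level_eq (by decide) 1 2 t7b, Set.sdiff_self]
  · rw [level_eq (by decide) 1 3 t11, Set.sdiff_self]

end Pool.Agent.Results.MP_c86b5e_nt.EmptyLevels
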